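import Pool.Agent.helper21.UB.Spec

set_option autoImplicit false

open Quaternion

namespace Pool.Agent.helper21.UB

theorem EMB_uniq {K : Type} [Field K] [NumberField K] {s : K} {k : ℕ} (hk : 1 ≤ k)
    (hs : s ^ 2 = -(k : K)) {a b : ℚ} (h : algebraMap ℚ K a + algebraMap ℚ K b * s = 0) :
    a = 0 ∧ b = 0 := by
  by_cases hb : b = 0
  · subst hb
    rw [map_zero, zero_mul, add_zero] at h
    exact ⟨(map_eq_zero _).1 h, rfl⟩
  · exfalso
    have hb' : algebraMap ℚ K b ≠ 0 := by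
      intro h0
      exact hb ((map_eq_zero _).1 h0)
    have h1 : (algebraMap ℚ K b * s) ^ 2 = (algebraMap ℚ K a) ^ 2 := by
      have h2 : algebraMap ℚ K b * s = -algebraMap ℚ K a := by linear_combination h
      rw [h2]
      ring
    rw [mul_pow, hs] at h1
    have h2 : algebraMap ℚ K (-(k * b ^ 2)) = algebraMap ℚ K (a ^ 2) := by
      rw [map_neg, map_mul, map_pow, map_pow, map_natCast]
      linear_combination h1
    have h3 := (algebraMap ℚ K).injective h2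
    have h4 : (0 : ℚ) < k * b ^ 2 := by
      have : (0 : ℚ) < k := by exact_mod_cast hk
      positivity
    nlinarith [sq_nonneg a]

theorem EMB_add (a b : ℚ) : ((a + b : ℚ) : ℍ[ℚ]) = (a : ℍ[ℚ]) + (b : ℍ[ℚ]) := by
  ext <;> simp

theorem EMB_sub (a b : ℚ) : ((a - b : ℚ) : ℍ[ℚ]) = (a : ℍ[ℚ]) - (b : ℍ[ℚ]) := by
  ext <;> simp

theorem EMB_mul (a b : ℚ) : ((a * b : ℚ) : ℍ[ℚ]) = (a : ℍ[ℚ]) * (b : ℍ[ℚ]) := by
  ext <;> simp

theorem EMB_nat (k : ℕ) : ((k : ℚ) : ℍ[ℚ]) = (k : ℍ[ℚ]) := by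
  ext <;> simp

theorem EMB_comm (r : ℚ) (w : ℍ[ℚ]) : w * (r : ℍ[ℚ]) = (r : ℍ[ℚ]) * w := by
  ext <;> simp <;> ring

theorem EMB : EMB_stmt := by
  intro K _ _ s k w hfin hk hs hw
  have hli : LinearIndependent ℚ ![(1 : K), s] := by
    rw [LinearIndependent.pair_iff]
    intro a b h
    apply EMB_uniq hk hs
    rw [Algebra.smul_def, Algebra.smul_def, mul_one] at h
    exact h
  have hspan := hli.span_eq_top_of_card_eq_finrank' (by rw [Fintype.card_fin, hfin])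
  have hex : ∀ β : K, ∃ a b : ℚ, β = algebraMap ℚ K a + algebraMap ℚ K b * s := by
    intro β
    have h1 : β ∈ Submodule.span ℚ (Set.range ![(1 : K), s]) := by
      rw [hspan]
      trivial
    rw [Matrix.range_cons, Matrix.range_cons, Matrix.range_empty, Set.union_empty,
      Set.singleton_union, Submodule.mem_span_pair] at h1
    obtain ⟨a, b, h2⟩ := h1
    refine ⟨a, b, ?_⟩
    rw [← h2, Algebra.smul_def, Algebra.smul_def, mul_one]
  have huniq : ∀ a b a' b' : ℚ, algebraMap ℚ K a + algebraMap ℚ K b * s =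
      algebraMap ℚ K a' + algebraMap ℚ K b' * s → a = a' ∧ b = b' := by
    intro a b a' b' h
    have h1 : algebraMap ℚ K (a - a') + algebraMap ℚ K (b - b') * s = 0 := by
      rw [map_sub, map_sub]
      linear_combination h
    obtain ⟨h2, h3⟩ := EMB_uniq hk hs h1
    exact ⟨sub_eq_zero.1 h2, sub_eq_zero.1 h3⟩
  choose a b hab using hex
  have hcomm : ∀ r : ℚ, w * (r : ℍ[ℚ]) = (r : ℍ[ℚ]) * w := fun r => EMB_comm r w
  let φ : K →+* ℍ[ℚ] :=
    { toFun := fun β => ((a β : ℚ) : ℍ[ℚ]) + ((b β : ℚ) : ℍ[ℚ]) * w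
      map_one' := by
        obtain ⟨h1, h2⟩ := huniq (a 1) (b 1) 1 0 (by
          rw [← hab 1, map_one, map_zero, zero_mul, add_zero])
        show ((a 1 : ℚ) : ℍ[ℚ]) + ((b 1 : ℚ) : ℍ[ℚ]) * w = 1
        rw [h1, h2]
        simp
      map_zero' := by
        obtain ⟨h1, h2⟩ := huniq (a 0) (b 0) 0 0 (by
          rw [← hab 0, map_zero, zero_mul, add_zero])
        show ((a 0 : ℚ) : ℍ[ℚ]) + ((b 0 : ℚ) : ℍ[ℚ]) * w = 0
        rw [h1, h2]
        simp
      map_add' := by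
        intro x y
        obtain ⟨h1, h2⟩ := huniq (a (x + y)) (b (x + y)) (a x + a y) (b x + b y) (by
          rw [← hab (x + y), map_add, map_add]
          linear_combination hab x + hab y)
        show ((a (x + y) : ℚ) : ℍ[ℚ]) + ((b (x + y) : ℚ) : ℍ[ℚ]) * w = _
        rw [h1, h2, EMB_add, EMB_add]
        noncomm_ring
      map_mul' := by
        intro x y
        obtain ⟨h1, h2⟩ := huniq (a (x * y)) (b (x * y)) (a x * a y - k * (b x * b y))
            (a x * b y + b x * a y) (by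
          rw [← hab (x * y), map_sub, map_mul, map_mul, map_mul, map_add, map_mul, map_mul,
            map_natCast]
          have e1 := hab x
          have e2 := hab y
          calc x * y = (algebraMap ℚ K (a x) + algebraMap ℚ K (b x) * s) *
                (algebraMap ℚ K (a y) + algebraMap ℚ K (b y) * s) := by rw [← e1, ← e2]
            _ = _ := by linear_combination (algebraMap ℚ K (b x) * algebraMap ℚ K (b y)) * hs)
        show ((a (x * y) : ℚ) : ℍ[ℚ]) + ((b (x * y) : ℚ) : ℍ[ℚ]) * w =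
          (((a x : ℚ) : ℍ[ℚ]) + ((b x : ℚ) : ℍ[ℚ]) * w) *
            (((a y : ℚ) : ℍ[ℚ]) + ((b y : ℚ) : ℍ[ℚ]) * w)
        have e3 : (((a x : ℚ) : ℍ[ℚ]) + ((b x : ℚ) : ℍ[ℚ]) * w) *
            (((a y : ℚ) : ℍ[ℚ]) + ((b y : ℚ) : ℍ[ℚ]) * w) =
            (a x : ℍ[ℚ]) * (a y : ℍ[ℚ]) + (a x : ℍ[ℚ]) * (b y : ℍ[ℚ]) * w
            + (b x : ℍ[ℚ]) * (w * (a y : ℍ[ℚ])) + (b x : ℍ[ℚ]) * (w * (b y : ℍ[ℚ])) * w := by
          noncomm_ring
        have e4 : (b x : ℍ[ℚ]) * ((b y : ℍ[ℚ]) * w) * w =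
            -((k : ℍ[ℚ]) * ((b x : ℍ[ℚ]) * (b y : ℍ[ℚ]))) := by
          have h5 : (b x : ℍ[ℚ]) * ((b y : ℍ[ℚ]) * w) * w =
              (b x : ℍ[ℚ]) * (b y : ℍ[ℚ]) * (w * w) := by noncomm_ring
          rw [h5, hw, mul_neg, Nat.cast_comm k ((b x : ℍ[ℚ]) * (b y : ℍ[ℚ]))]
        rw [e3, hcomm, hcomm, e4, h1, h2, EMB_sub, EMB_add, EMB_mul, EMB_mul, EMB_mul, EMB_mul,
          EMB_mul, EMB_nat]
        noncomm_ring }
  refine ⟨φ, ?_, fun β => ⟨a β, b β, hab β, rfl⟩⟩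
  obtain ⟨h1, h2⟩ := huniq (a s) (b s) 0 1 (by
    rw [← hab s, map_zero, map_one, one_mul, zero_add])
  show ((a s : ℚ) : ℍ[ℚ]) + ((b s : ℚ) : ℍ[ℚ]) * w = w
  rw [h1, h2]
  simp

end Pool.Agent.helper21.UB
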